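import Mathlib

set_option autoImplicit false

namespace Pool.Agent.Results.MP_17c227_co.PetersenRook

open Finset Matrix

def nb : List (List ℕ) :=
  [[7, 8, 9],
    [5, 6, 9],
    [4, 6, 8],
    [4, 5, 7],
    [2, 3, 9],
    [1, 3, 8],
    [1, 2, 7],
    [0, 3, 6],
    [0, 2, 5],
    [0, 1, 4],
    [11, 12, 13, 14, 18, 22],
    [10, 12, 13, 15, 19, 23],
    [10, 11, 13, 16, 20, 24],
    [10, 11, 12, 17, 21, 25],
    [10, 15, 16, 17, 18, 22],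
    [11, 14, 16, 17, 19, 23],
    [12, 14, 15, 17, 20, 24],
    [13, 14, 15, 16, 21, 25],
    [10, 14, 19, 20, 21, 22],
    [11, 15, 18, 20, 21, 23],
    [12, 16, 18, 19, 21, 24],
    [13, 17, 18, 19, 20, 25],
    [10, 14, 18, 23, 24, 25],
    [11, 15, 19, 22, 24, 25],
    [12, 16, 20, 22, 23, 25],
    [13, 17, 21, 22, 23, 24]]

def Bl : List (List ℤ) :=
  [[2, 0, 0, 0, 0, 0, 0, 0, 0, 0, 0, 0, 0],
    [0, 2, 0, 0, 0, 1, 0, 0, 0, 0, 0, 0, 0],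
    [0, 0, 2, 0, 1, 0, 0, 0, 0, 0, 0, 0, 0],
    [0, 0, 0, 2, 1, 1, 0, 0, 0, 0, 0, 0, 0],
    [0, 0, 1, 1, 2, 0, 0, 0, 0, 0, 0, 0, 0],
    [0, 1, 0, 1, 0, 2, 0, 0, 0, 0, 0, 0, 0],
    [0, 1, 1, 0, 0, 0, 0, 0, 0, 0, 0, 0, 0],
    [1, 0, 0, 1, 0, 0, 0, 0, 0, 0, 0, 0, 0],
    [1, 0, 1, 0, 0, 1, 0, 0, 0, 0, 0, 0, 0],
    [1, 1, 0, 0, 1, 0, 0, 0, 0, 0, 0, 0, 0],
    [0, 0, 0, 0, 0, 0, 2, 1, 1, 1, 1, 1, 1],
    [0, 0, 0, 0, 0, 0, 1, 2, 1, 1, 0, 0, 0],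
    [0, 0, 0, 0, 0, 0, 1, 1, 2, 1, 0, 0, 0],
    [0, 0, 0, 0, 0, 0, 1, 1, 1, 2, 0, 0, 0],
    [0, 0, 0, 0, 0, 0, 1, 0, 0, 0, 2, 1, 1],
    [0, 0, 0, 0, 0, 0, 0, 1, 0, 0, 1, 0, 0],
    [0, 0, 0, 0, 0, 0, 0, 0, 1, 0, 1, 0, 0],
    [0, 0, 0, 0, 0, 0, 0, 0, 0, 1, 1, 0, 0],
    [0, 0, 0, 0, 0, 0, 1, 0, 0, 0, 1, 2, 1],
    [0, 0, 0, 0, 0, 0, 0, 1, 0, 0, 0, 1, 0],
    [0, 0, 0, 0, 0, 0, 0, 0, 1, 0, 0, 1, 0],
    [0, 0, 0, 0, 0, 0, 0, 0, 0, 1, 0, 1, 0],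
    [0, 0, 0, 0, 0, 0, 1, 0, 0, 0, 1, 1, 2],
    [0, 0, 0, 0, 0, 0, 0, 1, 0, 0, 0, 0, 1],
    [0, 0, 0, 0, 0, 0, 0, 0, 1, 0, 0, 0, 1],
    [0, 0, 0, 0, 0, 0, 0, 0, 0, 1, 0, 0, 1]]

def Cl : List (List ℤ) :=
  [[2, 0, 0, 0, 0, 0, 0, 1, 1, 1, 0, 0, 0, 0, 0, 0, 0, 0, 0, 0, 0, 0, 0, 0, 0, 0],
    [0, 2, 0, 0, 0, 0, 2, 1, -1, 1, 0, 0, 0, 0, 0, 0, 0, 0, 0, 0, 0, 0, 0, 0, 0, 0],
    [0, 0, 2, 0, 0, 0, 2, 1, 1, -1, 0, 0, 0, 0, 0, 0, 0, 0, 0, 0, 0, 0, 0, 0, 0, 0],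
    [0, 0, 0, 2, 0, 0, 2, 3, -1, -1, 0, 0, 0, 0, 0, 0, 0, 0, 0, 0, 0, 0, 0, 0, 0, 0],
    [0, 0, 0, 0, 2, 0, -2, -2, 0, 2, 0, 0, 0, 0, 0, 0, 0, 0, 0, 0, 0, 0, 0, 0, 0, 0],
    [0, 0, 0, 0, 0, 2, -2, -2, 2, 0, 0, 0, 0, 0, 0, 0, 0, 0, 0, 0, 0, 0, 0, 0, 0, 0],
    [0, 0, 0, 0, 0, 0, 0, 0, 0, 0, 2, 0, 0, 0, 0, -2, -2, -2, 0, -2, -2, -2, 0, -2, -2, -2],
    [0, 0, 0, 0, 0, 0, 0, 0, 0, 0, 0, 2, 0, 0, 0, 2, 0, 0, 0, 2, 0, 0, 0, 2, 0, 0],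
    [0, 0, 0, 0, 0, 0, 0, 0, 0, 0, 0, 0, 2, 0, 0, 0, 2, 0, 0, 0, 2, 0, 0, 0, 2, 0],
    [0, 0, 0, 0, 0, 0, 0, 0, 0, 0, 0, 0, 0, 2, 0, 0, 0, 2, 0, 0, 0, 2, 0, 0, 0, 2],
    [0, 0, 0, 0, 0, 0, 0, 0, 0, 0, 0, 0, 0, 0, 2, 2, 2, 2, 0, 0, 0, 0, 0, 0, 0, 0],
    [0, 0, 0, 0, 0, 0, 0, 0, 0, 0, 0, 0, 0, 0, 0, 0, 0, 0, 2, 2, 2, 2, 0, 0, 0, 0],
    [0, 0, 0, 0, 0, 0, 0, 0, 0, 0, 0, 0, 0, 0, 0, 0, 0, 0, 0, 0, 0, 0, 2, 2, 2, 2]]

def adj (i j : Fin 26) : Prop := j.val ∈ nb.getD i.val []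

instance : DecidableRel adj := fun _ _ => by unfold adj; infer_instance

theorem adj_symm : ∀ i j, adj i j → adj j i := by decide +kernel

theorem adj_irr : ∀ i, ¬ adj i i := by decide +kernel

def G : SimpleGraph (Fin 26) where
  Adj := adj
  symm := ⟨adj_symm⟩
  loopless := ⟨adj_irr⟩

instance : DecidableRel G.Adj := inferInstanceAs (DecidableRel adj)

def B (i : Fin 26) (k : Fin 13) : ℤ := (Bl.getD i.val []).getD k.val 0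

def C (k : Fin 13) (j : Fin 26) : ℤ := (Cl.getD k.val []).getD j.val 0

theorem fac : ∀ i j : Fin 26, 2 * ((if adj i j then 1 else 0) + (if i = j then 2 else 0)) =
    ∑ k, B i k * C k j := by decide +kernel

theorem degs : ∑ v, G.degree v = 126 := by
  simp only [← G.card_neighborFinset_eq_degree, G.neighborFinset_eq_filter]
  decide +kernel

theorem mult (hA : (G.adjMatrix ℝ).IsHermitian) :
    Fintype.card {i // hA.eigenvalues i + 2 ≠ 0} ≤ 13 := by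
  have h1 := hA.spectral_theorem
  rw [Unitary.conjStarAlgAut_apply] at h1
  have h2 := Unitary.coe_star_mul_self hA.eigenvectorUnitary
  generalize (hA.eigenvectorUnitary : Matrix (Fin 26) (Fin 26) ℝ) = U at h1 h2
  have h3 : G.adjMatrix ℝ + (2 : ℝ) • 1 =
      (Matrix.of fun i k => (B i k : ℝ)) * (Matrix.of fun k j => (C k j / 2 : ℝ)) := by
    ext i j
    have := congrArg (Int.cast : ℤ → ℝ) (fac i j)
    push_cast at this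
    rw [Matrix.mul_apply]
    simp only [of_apply, ← mul_div_assoc, ← sum_div, ← this, Matrix.add_apply, G.adjMatrix_apply,
      Matrix.smul_apply, Matrix.one_apply, smul_eq_mul, mul_ite, mul_one, mul_zero]
    rw [mul_div_cancel_left₀ _ (by norm_num)]
    rfl
  have h4 : diagonal (fun i => hA.eigenvalues i + 2) = star U * (G.adjMatrix ℝ + (2 : ℝ) • 1) * U := by
    rw [Matrix.mul_add, Matrix.add_mul, Matrix.mul_smul, Matrix.smul_mul, Matrix.mul_one, h2]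
    conv_rhs => rw [h1]
    rw [← Matrix.mul_assoc, ← Matrix.mul_assoc, h2, Matrix.one_mul, Matrix.mul_assoc, h2,
      Matrix.mul_one]
    ext i j
    by_cases h : i = j <;> simp [h]
  rw [← Matrix.rank_diagonal, h4, h3]
  refine (rank_mul_le_left _ _).trans ((rank_mul_le_right _ _).trans
    ((rank_mul_le_left _ _).trans ?_))
  simpa using rank_le_width (Matrix.of fun (i : Fin 26) (k : Fin 13) => (B i k : ℝ))

/-- A graph of average degree at most `d = 63/13 ≥ 2` whose lower median eigenvalue `λ_ℓ`,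
`ℓ = ⌈(n+1)/2⌉`, has absolute value larger than `√(d-1)`. -/
theorem result : ∃ (d : ℝ) (n : ℕ) (G : SimpleGraph (Fin n)) (_ : DecidableRel G.Adj)
    (hA : (G.adjMatrix ℝ).IsHermitian) (l : Fin (Fintype.card (Fin n))),
    2 ≤ d ∧ 0 < n ∧ 2 * (G.edgeFinset.card : ℝ) / n ≤ d ∧ l.val + 1 = (n + 2) / 2 ∧
      √(d - 1) < |hA.eigenvalues₀ l| := by
  have hA : (G.adjMatrix ℝ).IsHermitian := by
    ext i j; simp [G.adj_comm]
  refine ⟨63 / 13, 26, G, inferInstance, hA, ⟨13, by simp⟩, by norm_num, by norm_num, ?_, rfl, ?_⟩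
  · have := G.sum_degrees_eq_twice_card_edges
    rw [degs] at this
    have : G.edgeFinset.card = 63 := by omega
    rw [this]; norm_num
  · have h1 : hA.eigenvalues₀ ⟨13, by simp⟩ ≤ -2 := by
      by_contra h
      push Not at h
      have h2 := mult hA
      have h3 : Fintype.card (Fin 14) ≤ Fintype.card {i // hA.eigenvalues i + 2 ≠ 0} := by
        let e : Fin (Fintype.card (Fin 26)) ≃ Fin 26 :=
          Fintype.equivOfCardEq (Fintype.card_fin _)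
        refine Fintype.card_le_of_injective (fun j => ⟨e ⟨j.val, by simp; omega⟩, ?_⟩) ?_
        · have : hA.eigenvalues₀ ⟨13, by simp⟩ ≤ hA.eigenvalues₀ ⟨j.val, by simp; omega⟩ :=
            hA.eigenvalues₀_antitone (by rw [Fin.le_def]; simp; omega)
          simp only [IsHermitian.eigenvalues, e, Equiv.symm_apply_apply]
          linarith
        · intro a b hab
          simpa [Fin.ext_iff] using e.injective (congrArg Subtype.val hab)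
      simp only [Fintype.card_fin] at h3
      omega
    rw [abs_of_neg (by linarith)]
    refine lt_of_lt_of_le (Real.sqrt_lt' (by norm_num : (0 : ℝ) < 2) |>.2 (by norm_num)) ?_
    linarith

end Pool.Agent.Results.MP_17c227_co.PetersenRook
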